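import Pool.Agent.N754.FV.Stm

/-!
# Specialisation of finitely many elements and of pairs of points
-/

set_option autoImplicit false

open MvPolynomial FF Pool.Agent.W603.LV Pool.Agent.N754.FV

namespace Pool.Agent.N624.FV

theorem spe : SPE := by
  intro F Ω M _ _ _ _ _ _ T b hb
  have hft : Algebra.FiniteType F (Algebra.adjoin F (T : Set M)) :=
    ⟨(Subalgebra.fg_top _).2 (Subalgebra.fg_adjoin_finset T)⟩
  have hjr : IsJacobsonRing (Algebra.adjoin F (T : Set M)) := isJacobsonRing_of_finiteType (A := F)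
  have h1 : (⊥ : Ideal (Algebra.adjoin F (T : Set M))).jacobson = ⊥ :=
    IsJacobsonRing.out hjr Ideal.isRadical_bot
  have h2 : b ∉ (⊥ : Ideal (Algebra.adjoin F (T : Set M))).jacobson := by
    rw [h1, Ideal.mem_bot]; exact hb
  unfold Ideal.jacobson at h2
  rw [Submodule.mem_sInf] at h2
  push Not at h2
  obtain ⟨m, ⟨-, hm⟩, hbm⟩ := h2
  let _ : Field (Algebra.adjoin F (T : Set M) ⧸ m) := Ideal.Quotient.field m
  have hft2 : Algebra.FiniteType F (Algebra.adjoin F (T : Set M) ⧸ m) :=
    Algebra.FiniteType.of_surjective (Ideal.Quotient.mkₐ F m) Ideal.Quotient.mk_surjective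
  have hfin : Module.Finite F (Algebra.adjoin F (T : Set M) ⧸ m) :=
    finite_of_finite_type_of_isJacobsonRing F (Algebra.adjoin F (T : Set M) ⧸ m)
  let ψ : (Algebra.adjoin F (T : Set M) ⧸ m) →ₐ[F] Ω := IsAlgClosed.lift
  refine ⟨ψ.comp (Ideal.Quotient.mkₐ F m), ?_⟩
  intro h
  apply hbm
  have h3 : ψ (Ideal.Quotient.mkₐ F m b) = 0 := h
  have h4 := (map_eq_zero ψ.toRingHom).1 h3
  exact Ideal.Quotient.eq_zero_iff_mem.1 h4

theorem sp2 : SP2 := by
  intro F Ω M _ _ _ _ _ _ ι n E G U y z hy hz hU hne hG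
  classical
  obtain ⟨j, hj⟩ : ∃ j, z j ≠ y j := by
    by_contra hcon
    push Not at hcon
    exact hne (funext hcon)
  set T : Finset M := Finset.univ.image y ∪ Finset.univ.image z with hT
  have hyT : ∀ i, y i ∈ Algebra.adjoin F (T : Set M) := fun i =>
    Algebra.subset_adjoin (by simp [hT])
  have hzT : ∀ i, z i ∈ Algebra.adjoin F (T : Set M) := fun i =>
    Algebra.subset_adjoin (by simp [hT])
  set yy : Fin n → Algebra.adjoin F (T : Set M) := fun i => ⟨y i, hyT i⟩ with hyy
  set zz : Fin n → Algebra.adjoin F (T : Set M) := fun i => ⟨z i, hzT i⟩ with hzz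
  have ey : ∀ Q : MvPolynomial (Fin n) F, ((aeval yy Q : Algebra.adjoin F (T : Set M)) : M) =
      aeval y Q := by
    intro Q
    have := MvPolynomial.comp_aeval_apply yy (Algebra.adjoin F (T : Set M)).val Q
    exact this
  have ez : ∀ Q : MvPolynomial (Fin n) F, ((aeval zz Q : Algebra.adjoin F (T : Set M)) : M) =
      aeval z Q := by
    intro Q
    have := MvPolynomial.comp_aeval_apply zz (Algebra.adjoin F (T : Set M)).val Q
    exact this
  obtain ⟨φ, hφ⟩ := spe F Ω M T ((zz j - yy j) * aeval yy G) (by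
    refine mul_ne_zero ?_ ?_
    · intro h
      apply hj
      have := congrArg Subtype.val h
      simpa [hyy, hzz, sub_eq_zero] using this
    · intro h
      apply hG
      rw [← ey, h]
      rfl)
  rw [map_mul, map_sub] at hφ
  have fy : ∀ Q : MvPolynomial (Fin n) F, aeval (fun i => φ (yy i)) Q = φ (aeval yy Q) := by
    intro Q
    exact (MvPolynomial.comp_aeval_apply yy φ Q).symm
  have fz : ∀ Q : MvPolynomial (Fin n) F, aeval (fun i => φ (zz i)) Q = φ (aeval zz Q) := by
    intro Q
    exact (MvPolynomial.comp_aeval_apply zz φ Q).symm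
  refine ⟨fun i => φ (yy i), fun i => φ (zz i), ?_, ?_, ?_, ?_, ?_⟩
  · intro l
    have h0 : aeval yy (E l) = 0 := Subtype.ext (by rw [ey, hy]; rfl)
    rw [fy, h0, map_zero]
  · intro l
    have h0 : aeval zz (E l) = 0 := Subtype.ext (by rw [ez, hz]; rfl)
    rw [fz, h0, map_zero]
  · intro i hi
    have : zz i = yy i := Subtype.ext (hU i hi)
    simp only [this]
  · intro h
    apply left_ne_zero_of_mul hφ
    have h5 : φ (zz j) = φ (yy j) := congrFun h j
    rw [h5, sub_self]
  · rw [fy]
    exact right_ne_zero_of_mul hφ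

end Pool.Agent.N624.FV
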